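import Pool.Agent.H158_HM.Ram

/-!
# A set for which the theorem of Ramsey for pairs holds and the canonical one fails

All definitions used in the statement are in `Pool.Agent.H158_HM.RamDefs` and
`Pool.Agent.W868.Defs`.
-/

set_option autoImplicit false

namespace Pool.Agent.Results.MP_5f5b92_lc.RamseyNotCanonical

open Pool.Agent.W868 (IsZF)
open Pool.Agent.H158_HM.Ram (RT CRT)

/-- There is a countable transitive model `N` of ZF with a set `A` such that in `N` the statement
`CRT(A)` fails and `RT²_n(A)` holds for all `n`. Moreover, every countable transitive model of ZF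
has an extension with this property that has the same ordinals. -/
theorem result :
    (∃ N : Set ZFSet.{0}, N.Countable ∧ IsZF N ∧ ∃ A ∈ N, ¬ CRT N A ∧ ∀ n, RT N n A) ∧
    ∀ M : Set ZFSet.{0}, M.Countable → IsZF M → ∃ N : Set ZFSet.{0}, M ⊆ N ∧ N.Countable ∧
      IsZF N ∧ (∀ x : ZFSet.{0}, x.IsOrdinal → (x ∈ N ↔ x ∈ M)) ∧
      ∃ A ∈ N, ¬ CRT N A ∧ ∀ n, RT N n A := by
  refine ⟨?_, fun M hc hM => Pool.Agent.H158_HM.Ram.main hM hc⟩
  obtain ⟨M, hc, hM⟩ := Pool.Agent.H158_HM.Ram.exists_ctm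
  obtain ⟨N, -, h1, h2, -, h3⟩ := Pool.Agent.H158_HM.Ram.main hM.toIsZF hc
  exact ⟨N, h1, h2, h3⟩

end Pool.Agent.Results.MP_5f5b92_lc.RamseyNotCanonical
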